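import Pool.Agent.W2helper58.MatFun

/-! Bipartite graphs of all sizes in one input. -/

set_option linter.unusedSectionVars false
set_option linter.unusedVariables false
set_option autoImplicit false

namespace Pool.Agent.W2helper58.NT

open Finset Pool.Agent.H560R2 Pool.Agent.W2helper58

/-- the function -/
def AnyMatching (n : ℕ) (x : Fin n → Bool) : Prop :=
  ∃ e : ℕ, e < Nat.log 2 n ∧ ∃ J : ℕ, (J + 1) * (2 ^ e) ^ 2 ≤ n / Nat.log 2 n ∧
    ∃ σ : Equiv.Perm (Fin (2 ^ e)), ∀ u : Fin (2 ^ e), ∀ p : Fin n,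
      p.val = e * (n / Nat.log 2 n) + (J * (2 ^ e) ^ 2 + u.val * 2 ^ e + (σ u).val) → x p = true

lemma region_le {n e : ℕ} (he : e < Nat.log 2 n) :
    e * (n / Nat.log 2 n) + n / Nat.log 2 n ≤ n := by
  calc e * (n / Nat.log 2 n) + n / Nat.log 2 n = (e + 1) * (n / Nat.log 2 n) := by ring
    _ ≤ Nat.log 2 n * (n / Nat.log 2 n) := Nat.mul_le_mul_right _ he
    _ ≤ n := Nat.mul_div_le n _

lemma blk_lt {k J m : ℕ} (hJ : (J + 1) * k ^ 2 ≤ m) (u v : Fin k) :
    J * k ^ 2 + u.val * k + v.val < m := by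
  have h2 : u.val * k + v.val < k ^ 2 := by
    have hu := u.isLt
    have hv := v.isLt
    calc u.val * k + v.val < u.val * k + k := by omega
      _ = (u.val + 1) * k := by ring
      _ ≤ k * k := Nat.mul_le_mul_right _ hu
      _ = k ^ 2 := by ring
  calc J * k ^ 2 + u.val * k + v.val < J * k ^ 2 + k ^ 2 := by omega
    _ = (J + 1) * k ^ 2 := by ring
    _ ≤ m := hJ

/-- block, row and column of an input bit, in region `e` -/
def locS (n e : ℕ) (p : Fin n) :
    Option (Fin (n / Nat.log 2 n / (2 ^ e) ^ 2) × (Fin (2 ^ e) × Fin (2 ^ e))) :=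
  if h : e * (n / Nat.log 2 n) ≤ p.val ∧ p.val < e * (n / Nat.log 2 n) + n / Nat.log 2 n then
    locM (n / Nat.log 2 n) (2 ^ e) (by positivity) ⟨p.val - e * (n / Nat.log 2 n), by omega⟩
  else none

lemma locS_pos {n e : ℕ} (J : Fin (n / Nat.log 2 n / (2 ^ e) ^ 2)) (u v : Fin (2 ^ e)) (p : Fin n)
    (hp : p.val = e * (n / Nat.log 2 n) + (J.val * (2 ^ e) ^ 2 + u.val * 2 ^ e + v.val)) :
    locS n e p = some (J, (u, v)) := by
  have hlt := pos_lt (n := n / Nat.log 2 n) (k := 2 ^ e) (by positivity) J u v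
  unfold locS
  rw [dif_pos (by omega)]
  apply locM_pos
  show p.val - e * (n / Nat.log 2 n) = _
  omega

lemma anyMatching_Es {n e : ℕ} (he : e < Nat.log 2 n)
    (y : Fin (n / Nat.log 2 n / (2 ^ e) ^ 2) → Set (Fin (2 ^ e) × Fin (2 ^ e))) :
    AnyMatching n (Es (locS n e) y) ↔
      ∃ J, ∃ σ : Equiv.Perm (Fin (2 ^ e)), ∀ u, (u, σ u) ∈ y J := by
  have hk2 : ∀ e' : ℕ, 0 < (2 ^ e') ^ 2 := fun e' => by positivity
  constructor
  · rintro ⟨e', he', J, hJ, σ, h⟩
    by_cases hee : e' = e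
    · subst hee
      have hJ' : J < n / Nat.log 2 n / (2 ^ e') ^ 2 := by
        rw [Nat.lt_iff_add_one_le, Nat.le_div_iff_mul_le (hk2 e')]
        exact hJ
      refine ⟨⟨J, hJ'⟩, σ, fun u => ?_⟩
      have hlt := blk_lt hJ u (σ u)
      have hreg := region_le he'
      have h1 := h u ⟨e' * (n / Nat.log 2 n) +
        (J * (2 ^ e') ^ 2 + u.val * 2 ^ e' + (σ u).val), by omega⟩ rfl
      unfold Es at h1
      rw [locS_pos ⟨J, hJ'⟩ u (σ u) _ rfl] at h1
      simpa using h1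
    · exfalso
      have hlt := blk_lt hJ ⟨0, by positivity⟩ (σ ⟨0, by positivity⟩)
      have hreg := region_le he'
      have h1 := h ⟨0, by positivity⟩ ⟨e' * (n / Nat.log 2 n) +
        (J * (2 ^ e') ^ 2 + (⟨0, by positivity⟩ : Fin (2 ^ e')).val * 2 ^ e' +
          (σ ⟨0, by positivity⟩).val), by omega⟩ rfl
      unfold Es at h1
      have h2 : ∀ p : Fin n, e' * (n / Nat.log 2 n) ≤ p.val →
          p.val < e' * (n / Nat.log 2 n) + n / Nat.log 2 n → locS n e p = none := by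
        intro p h3 h4
        unfold locS
        rw [dif_neg]
        rintro ⟨h5, h6⟩
        rcases Nat.lt_or_gt_of_ne hee with h7 | h7
        · have h8 : (e' + 1) * (n / Nat.log 2 n) ≤ e * (n / Nat.log 2 n) :=
            Nat.mul_le_mul_right _ h7
          rw [add_mul, one_mul] at h8
          omega
        · have h8 : (e + 1) * (n / Nat.log 2 n) ≤ e' * (n / Nat.log 2 n) :=
            Nat.mul_le_mul_right _ h7
          rw [add_mul, one_mul] at h8
          omega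
      rw [h2 _ (Nat.le_add_right _ _) (Nat.add_lt_add_left hlt _)] at h1
      simp at h1
  · rintro ⟨J, σ, h⟩
    refine ⟨e, he, J.val, ?_, σ, fun u p hp => ?_⟩
    · calc (J.val + 1) * (2 ^ e) ^ 2 ≤ (n / Nat.log 2 n / (2 ^ e) ^ 2) * (2 ^ e) ^ 2 :=
            Nat.mul_le_mul_right _ J.isLt
        _ ≤ n / Nat.log 2 n := Nat.div_mul_le_self _ _
    · unfold Es
      rw [locS_pos J u (σ u) p hp]
      simpa using h u

lemma anyMatching_mono {n : ℕ} {x y : Fin n → Bool} (hxy : ∀ p, x p = true → y p = true)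
    (h : AnyMatching n x) : AnyMatching n y := by
  obtain ⟨e, he, J, hJ, σ, h⟩ := h
  exact ⟨e, he, J, hJ, σ, fun u p hp => hxy p (h u p hp)⟩

open Classical in
theorem any_hard (n e w lam : ℕ) (hw : 1 ≤ w) (he : e < Nat.log 2 n) (hn : 2 ^ e < 2 ^ lam)
    (hbig : 2 ^ 59 * (lam + 1) ^ 8 * w ^ 8 ≤ 2 ^ e) (hM : 0 < n / Nat.log 2 n / (2 ^ e) ^ 2) :
    ∃ (Λ : Type) (_ : Fintype Λ) (_ : Nonempty Λ) (yes no : Λ → (Fin n → Bool)),
      (∀ l, AnyMatching n (yes l)) ∧ (∀ l, ¬ AnyMatching n (no l)) ∧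
      ∀ (s : ℕ) (T : Finset (Fin s)) (ar : Fin s → ℕ) (a : ∀ i, Fin (ar i) → Fin n ⊕ Fin s)
        (op : ∀ i, (Fin (ar i) → ℝ) → ℝ) (θ : ∀ i, Fin (ar i) → ℝ)
        (val : (Fin n → Bool) → Fin s → ℝ) (o : Fin s) (τ : ℝ)
        (_ : ∀ i j m, a i j = Sum.inr m → m < i)
        (_ : ∀ i ∉ T, ar i ≤ 2 ∧ Monotone (op i))
        (_ : ∀ i ∈ T, ∀ z z' : Fin (ar i) → ℝ, (∀ j, θ i j ≤ z j ↔ θ i j ≤ z' j) →
          op i z = op i z')
        (_ : ∀ x i, val x i = op i (fun j => Sum.elim (bit x) (val x) (a i j)))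
        (_ : s + ∑ i ∈ T, ar i ≤ 2 ^ w),
        ((univ.filter (fun l : Λ => τ ≤ val (yes l) o)).card : ℝ) / Fintype.card Λ ≤
          ((univ.filter (fun l : Λ => τ ≤ val (no l) o)).card : ℝ) / Fintype.card Λ +
            ((∏ i ∈ T, (ar i + 1) : ℕ) : ℝ) / ((n / Nat.log 2 n / (2 ^ e) ^ 2 : ℕ) : ℝ) +
              1 / w := by
  have hk : 0 < 2 ^ e := by positivity
  obtain ⟨Ng, hNg, hNgne, sn, hsn, hA⟩ := match_avg (n := 2 ^ e) w lam hw hn hbig
  have hMne : Nonempty (Fin (n / Nat.log 2 n / (2 ^ e) ^ 2)) := ⟨⟨0, hM⟩⟩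
  refine ⟨Fin (n / Nat.log 2 n / (2 ^ e) ^ 2) × (Fin (n / Nat.log 2 n / (2 ^ e) ^ 2) → Ng) ×
    Equiv.Perm (Fin (2 ^ e)), inferInstance,
    inferInstance, yesD (locS n e) pgr sn, noD (locS n e) sn, ?_, ?_, ?_⟩
  · intro l
    unfold yesD
    rw [anyMatching_Es he]
    refine ⟨l.1, l.2.2, fun u => ?_⟩
    rw [Function.update_self]
    exact mem_pgr.mpr rfl
  · intro l
    unfold noD
    rw [anyMatching_Es he]
    rintro ⟨J, σ, h⟩
    by_cases hJ : J.val < l.1 + 1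
    · apply hsn (l.2.1 J) σ
      intro e he
      have h1 := h e.1
      simp only [stS, hJ, if_true] at h1
      rw [mem_pgr] at he
      have h2 : (e.1, σ e.1) = e := Prod.ext rfl he
      rw [h2] at h1
      exact h1
    · have h1 := h ⟨0, hk⟩
      simp only [stS, hJ, if_false] at h1
      exact h1
  · intro s T ar a op θ val o τ htop hmon hT hval hS
    have hh := avg_chain (T := T) (w := ar) (a := a) (op := op) (θ := θ) (val := val) hA hM
      (locS n e) htop hmon hT hval hS o τ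
    convert hh using 2

end Pool.Agent.W2helper58.NT
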