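import Pool.Agent.W2helper58.NT.Num

/-! The main theorem in the form of statements about families of functions. -/

set_option autoImplicit false

namespace Pool.Agent.W2helper58.NT

open Finset Pool.Agent.H560R2 Pool.Agent.W2helper58

open Classical in
theorem any_hard_all (n w : ℕ) (hn : 2 ≤ n) (hw : 1 ≤ w) :
    ∃ (Λ : Type) (_ : Fintype Λ) (_ : Nonempty Λ) (yes no : Λ → (Fin n → Bool)),
      (∀ l, AnyMatching n (yes l)) ∧ (∀ l, ¬ AnyMatching n (no l)) ∧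
      ∀ (s : ℕ) (T : Finset (Fin s)) (ar : Fin s → ℕ) (a : ∀ i, Fin (ar i) → Fin n ⊕ Fin s)
        (op : ∀ i, (Fin (ar i) → ℝ) → ℝ) (θ : ∀ i, Fin (ar i) → ℝ)
        (val : (Fin n → Bool) → Fin s → ℝ) (o : Fin s) (τ : ℝ)
        (_ : ∀ i j m, a i j = Sum.inr m → m < i)
        (_ : ∀ i ∉ T, ar i ≤ 2 ∧ Monotone (op i))
        (_ : ∀ i ∈ T, ∀ z z' : Fin (ar i) → ℝ, (∀ j, θ i j ≤ z j ↔ θ i j ≤ z' j) →
          op i z = op i z')
        (_ : ∀ x i, val x i = op i (fun j => Sum.elim (bit x) (val x) (a i j)))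
        (_ : s + ∑ i ∈ T, ar i ≤ 2 ^ w),
        ((univ.filter (fun l : Λ => τ ≤ val (yes l) o)).card : ℝ) / Fintype.card Λ ≤
          ((univ.filter (fun l : Λ => τ ≤ val (no l) o)).card : ℝ) / Fintype.card Λ +
            (((2 : ℝ) ^ 140) ^ 2 * ((∏ i ∈ T, (ar i + 1) : ℕ) : ℝ) *
              ((w : ℝ) * (Nat.log 2 w + 1)) ^ 16 * Nat.log 2 n / n + 1 / w) := by
  obtain ⟨e, he1, he2⟩ := params2 w hw
  obtain ⟨X, hX⟩ : ∃ X, X = (w * (Nat.log 2 w + 1)) ^ 16 := ⟨_, rfl⟩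
  rw [← hX] at he2
  have hXR : ((w : ℝ) * (Nat.log 2 w + 1)) ^ 16 = (X : ℝ) := by rw [hX]; push_cast; ring
  have hnR : (0 : ℝ) < n := by
    have : 0 < n := by omega
    exact_mod_cast this
  have hwR : (0 : ℝ) < w := by exact_mod_cast hw
  rw [hXR]
  by_cases hc : Nat.log 2 n ≤ e ∨ n / Nat.log 2 n / (2 ^ e) ^ 2 = 0
  · have hb := bad hn he2 hc
    refine ⟨Unit, inferInstance, inferInstance, fun _ _ => true, fun _ _ => false,
      fun _ => any_true hn, fun _ => not_any_false, ?_⟩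
    intro s T ar a op θ val o τ _ _ _ _ _
    have h1 : (1 : ℝ) ≤ ((∏ i ∈ T, (ar i + 1) : ℕ) : ℝ) := by
      have : 1 ≤ ∏ i ∈ T, (ar i + 1) := Nat.one_le_iff_ne_zero.mpr
        (Finset.prod_ne_zero_iff.mpr fun i _ => by omega)
      exact_mod_cast this
    have h2 : (n : ℝ) ≤ ((2 : ℝ) ^ 140) ^ 2 * X * Nat.log 2 n := by
      have h3 : ((n : ℕ) : ℝ) ≤ (((2 ^ 140) ^ 2 * X * Nat.log 2 n : ℕ) : ℝ) := by
        exact_mod_cast hb
      refine h3.trans (le_of_eq ?_)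
      rw [Nat.cast_mul, Nat.cast_mul, Nat.cast_pow, Nat.cast_pow, Nat.cast_ofNat]
    have h4 : (1 : ℝ) ≤ ((2 : ℝ) ^ 140) ^ 2 * ((∏ i ∈ T, (ar i + 1) : ℕ) : ℝ) * X *
        Nat.log 2 n / n := by
      rw [le_div_iff₀ hnR, one_mul]
      refine h2.trans ?_
      have h5 : (0 : ℝ) ≤ ((2 : ℝ) ^ 140) ^ 2 * X * Nat.log 2 n := by positivity
      calc ((2 : ℝ) ^ 140) ^ 2 * X * Nat.log 2 n = (((2 : ℝ) ^ 140) ^ 2 * X * Nat.log 2 n) * 1 := by
            ring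
        _ ≤ (((2 : ℝ) ^ 140) ^ 2 * X * Nat.log 2 n) * ((∏ i ∈ T, (ar i + 1) : ℕ) : ℝ) :=
            mul_le_mul_of_nonneg_left h1 h5
        _ = _ := by ring
    have h6 : ((univ.filter (fun l : Unit => τ ≤ val ((fun (_ : Unit) (_ : Fin n) => true) l) o)).card : ℝ) /
        Fintype.card Unit ≤ 1 := by
      rw [div_le_one (by simp)]
      exact_mod_cast (Finset.card_filter_le _ _).trans_eq Finset.card_univ
    have h7 : (0 : ℝ) ≤ ((univ.filter (fun l : Unit =>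
        τ ≤ val ((fun (_ : Unit) (_ : Fin n) => false) l) o)).card : ℝ) / Fintype.card Unit := by
      positivity
    have h8 : (0 : ℝ) < 1 / w := by positivity
    linarith
  · push Not at hc
    have hM : 0 < n / Nat.log 2 n / (2 ^ e) ^ 2 := Nat.pos_of_ne_zero hc.2
    have hg := good hn he2 hM
    obtain ⟨Λ, hΛ, hΛne, yes, no, hyes, hno, hadv⟩ :=
      any_hard n e w (e + 1) hw hc.1 (Nat.pow_lt_pow_right (by norm_num) (by omega)) he1 hM
    refine ⟨Λ, hΛ, hΛne, yes, no, hyes, hno, ?_⟩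
    intro s T ar a op θ val o τ htop hmon hT hval hS
    refine (hadv s T ar a op θ val o τ htop hmon hT hval hS).trans ?_
    rw [add_assoc]
    refine add_le_add le_rfl (add_le_add ?_ le_rfl)
    have hMR : (0 : ℝ) < ((n / Nat.log 2 n / (2 ^ e) ^ 2 : ℕ) : ℝ) := by exact_mod_cast hM
    rw [div_le_div_iff₀ hMR hnR]
    have h2 : (n : ℝ) ≤ ((2 : ℝ) ^ 140) ^ 2 * X * Nat.log 2 n *
        ((n / Nat.log 2 n / (2 ^ e) ^ 2 : ℕ) : ℝ) := by
      have h3 : ((n : ℕ) : ℝ) ≤ (((2 ^ 140) ^ 2 * X * Nat.log 2 n *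
        (n / Nat.log 2 n / (2 ^ e) ^ 2) : ℕ) : ℝ) := by exact_mod_cast hg
      refine h3.trans (le_of_eq ?_)
      rw [Nat.cast_mul, Nat.cast_mul, Nat.cast_mul, Nat.cast_pow, Nat.cast_pow, Nat.cast_ofNat]
    have h5 : (0 : ℝ) ≤ ((∏ i ∈ T, (ar i + 1) : ℕ) : ℝ) := by positivity
    calc ((∏ i ∈ T, (ar i + 1) : ℕ) : ℝ) * n ≤ ((∏ i ∈ T, (ar i + 1) : ℕ) : ℝ) *
          (((2 : ℝ) ^ 140) ^ 2 * X * Nat.log 2 n *
            ((n / Nat.log 2 n / (2 ^ e) ^ 2 : ℕ) : ℝ)) := mul_le_mul_of_nonneg_left h2 h5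
      _ = _ := by ring

end Pool.Agent.W2helper58.NT
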