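import Pool.Agent.W2helper58.NT.Fun

/-! Parameters. -/

set_option autoImplicit false

namespace Pool.Agent.W2helper58.NT

lemma params2 (W : ℕ) (hW : 1 ≤ W) :
    ∃ e : ℕ, 2 ^ 59 * (e + 1 + 1) ^ 8 * W ^ 8 ≤ 2 ^ e ∧
      (2 ^ e) ^ 2 ≤ (2 ^ 139) ^ 2 * (W * (Nat.log 2 W + 1)) ^ 16 := by
  obtain ⟨l, hl⟩ : ∃ l, l = Nat.log 2 W + 1 := ⟨_, rfl⟩
  obtain ⟨m, hm⟩ : ∃ m, m = Nat.log 2 l + 1 := ⟨_, rfl⟩
  have hl1 : 1 ≤ l := by omega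
  have hWl : W < 2 ^ l := by rw [hl]; exact Nat.lt_pow_succ_log_self (by norm_num) W
  have hlW : 2 ^ l ≤ 2 * W := by
    rw [hl, pow_succ, mul_comm]
    exact Nat.mul_le_mul_left 2 (Nat.pow_log_le_self 2 (by omega))
  have hlm : l < 2 ^ m := by rw [hm]; exact Nat.lt_pow_succ_log_self (by norm_num) l
  have hml : 2 ^ m ≤ 2 * l := by
    rw [hm, pow_succ, mul_comm]
    exact Nat.mul_le_mul_left 2 (Nat.pow_log_le_self 2 (by omega))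
  have hml2 : m ≤ l := by
    rw [hm]
    have := Nat.log_lt_self 2 (x := l) (by omega)
    omega
  have he : 2 ^ (8 * l + 8 * m + 123) = 2 ^ 123 * (2 ^ m) ^ 8 * (2 ^ l) ^ 8 := by
    rw [← pow_mul, ← pow_mul, ← pow_add, ← pow_add]
    congr 1
    ring
  refine ⟨8 * l + 8 * m + 123, ?_, ?_⟩
  · rw [he]
    calc 2 ^ 59 * (8 * l + 8 * m + 123 + 1 + 1) ^ 8 * W ^ 8
        ≤ 2 ^ 59 * (2 ^ 8 * l) ^ 8 * W ^ 8 := by
          refine Nat.mul_le_mul_right _ (Nat.mul_le_mul_left _ (Nat.pow_le_pow_left ?_ 8))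
          omega
      _ = 2 ^ 123 * l ^ 8 * W ^ 8 := by ring
      _ ≤ 2 ^ 123 * (2 ^ m) ^ 8 * (2 ^ l) ^ 8 :=
          Nat.mul_le_mul (Nat.mul_le_mul_left _ (Nat.pow_le_pow_left hlm.le 8))
            (Nat.pow_le_pow_left hWl.le 8)
  · have h1 : 2 ^ (8 * l + 8 * m + 123) ≤ 2 ^ 139 * (W * l) ^ 8 := by
      rw [he]
      calc _ ≤ 2 ^ 123 * (2 * l) ^ 8 * (2 * W) ^ 8 :=
            Nat.mul_le_mul (Nat.mul_le_mul_left _ (Nat.pow_le_pow_left hml 8))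
              (Nat.pow_le_pow_left hlW 8)
        _ = _ := by ring
    calc (2 ^ (8 * l + 8 * m + 123)) ^ 2 ≤ (2 ^ 139 * (W * l) ^ 8) ^ 2 :=
          Nat.pow_le_pow_left h1 2
      _ = (2 ^ 139) ^ 2 * (W * (Nat.log 2 W + 1)) ^ 16 := by rw [← hl]; ring

lemma n_le {n : ℕ} (hn : 2 ≤ n) : n ≤ 2 * Nat.log 2 n * (n / Nat.log 2 n) := by
  have hE : 0 < Nat.log 2 n := Nat.log_pos (by norm_num) hn
  have hEn : Nat.log 2 n ≤ n := Nat.log_le_self 2 n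
  have h1 : 1 ≤ n / Nat.log 2 n := (Nat.one_le_div_iff hE).mpr hEn
  have h2 : n < n / Nat.log 2 n * Nat.log 2 n + Nat.log 2 n := Nat.lt_div_mul_add hE
  have h3 : Nat.log 2 n * 1 ≤ Nat.log 2 n * (n / Nat.log 2 n) := Nat.mul_le_mul_left _ h1
  nlinarith

/-- the good case -/
lemma good {n e X : ℕ} (hn : 2 ≤ n) (hX : (2 ^ e) ^ 2 ≤ (2 ^ 139) ^ 2 * X)
    (hM : 0 < n / Nat.log 2 n / (2 ^ e) ^ 2) :
    n ≤ (2 ^ 140) ^ 2 * X * Nat.log 2 n * (n / Nat.log 2 n / (2 ^ e) ^ 2) := by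
  obtain ⟨M, hMd⟩ : ∃ M, M = n / Nat.log 2 n / (2 ^ e) ^ 2 := ⟨_, rfl⟩
  rw [← hMd] at hM ⊢
  have hk : 0 < (2 ^ e) ^ 2 := by positivity
  have h1 : n / Nat.log 2 n < M * (2 ^ e) ^ 2 + (2 ^ e) ^ 2 := by
    rw [hMd]; exact Nat.lt_div_mul_add hk
  have h2 : n / Nat.log 2 n ≤ 2 * (M * (2 ^ e) ^ 2) := by
    have : 1 * (2 ^ e) ^ 2 ≤ M * (2 ^ e) ^ 2 := Nat.mul_le_mul_right _ hM
    omega
  calc n ≤ 2 * Nat.log 2 n * (n / Nat.log 2 n) := n_le hn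
    _ ≤ 2 * Nat.log 2 n * (2 * (M * (2 ^ e) ^ 2)) := Nat.mul_le_mul_left _ h2
    _ ≤ 2 * Nat.log 2 n * (2 * (M * ((2 ^ 139) ^ 2 * X))) := by gcongr
    _ = (2 ^ 140) ^ 2 * X * Nat.log 2 n * M := by ring

/-- the degenerate case -/
lemma bad {n e X : ℕ} (hn : 2 ≤ n) (hX : (2 ^ e) ^ 2 ≤ (2 ^ 139) ^ 2 * X)
    (h : Nat.log 2 n ≤ e ∨ n / Nat.log 2 n / (2 ^ e) ^ 2 = 0) :
    n ≤ (2 ^ 140) ^ 2 * X * Nat.log 2 n := by
  have hE : 0 < Nat.log 2 n := Nat.log_pos (by norm_num) hn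
  rcases h with h | h
  · have h1 : n < 2 ^ (Nat.log 2 n + 1) := Nat.lt_pow_succ_log_self (by norm_num) n
    have h2 : 2 ^ (Nat.log 2 n + 1) ≤ 2 ^ (e + 1) := Nat.pow_le_pow_right (by norm_num) (by omega)
    have h3 : 2 ^ e ≤ (2 ^ e) ^ 2 := Nat.le_self_pow (by norm_num) _
    calc n ≤ 2 * 2 ^ e := by rw [← pow_succ']; omega
      _ ≤ 2 * ((2 ^ 139) ^ 2 * X) := Nat.mul_le_mul_left _ (h3.trans hX)
      _ ≤ 4 * ((2 ^ 139) ^ 2 * X) := Nat.mul_le_mul_right _ (by norm_num)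
      _ = (2 ^ 140) ^ 2 * X * 1 := by ring
      _ ≤ (2 ^ 140) ^ 2 * X * Nat.log 2 n := Nat.mul_le_mul_left _ hE
  · have hk : 0 < (2 ^ e) ^ 2 := by positivity
    have h1 : n / Nat.log 2 n < (2 ^ e) ^ 2 := by
      by_contra hc
      have := Nat.div_pos (not_lt.mp hc) hk
      omega
    calc n ≤ 2 * Nat.log 2 n * (n / Nat.log 2 n) := n_le hn
      _ ≤ 2 * Nat.log 2 n * ((2 ^ 139) ^ 2 * X) := Nat.mul_le_mul_left _ (h1.le.trans hX)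
      _ ≤ 4 * Nat.log 2 n * ((2 ^ 139) ^ 2 * X) :=
          Nat.mul_le_mul_right _ (Nat.mul_le_mul_right _ (by norm_num))
      _ = _ := by ring

lemma scale (w D : ℕ) :
    (w * D * (Nat.log 2 (w * D) + 1)) ^ 16 ≤
      (w * (Nat.log 2 w + 1)) ^ 16 * (D * (Nat.log 2 D + 2)) ^ 16 := by
  rw [← mul_pow]
  apply Nat.pow_le_pow_left
  rcases Nat.eq_zero_or_pos (w * D) with h0 | h0
  · rw [h0]; simp
  have h1 : w < 2 ^ (Nat.log 2 w + 1) := Nat.lt_pow_succ_log_self (by norm_num) w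
  have h2 : D < 2 ^ (Nat.log 2 D + 1) := Nat.lt_pow_succ_log_self (by norm_num) D
  have h3 : w * D < 2 ^ (Nat.log 2 w + 1 + (Nat.log 2 D + 1)) := by
    rw [pow_add]
    exact Nat.mul_lt_mul'' h1 h2
  have h4 : Nat.log 2 (w * D) < Nat.log 2 w + 1 + (Nat.log 2 D + 1) :=
    Nat.log_lt_of_lt_pow (by omega) h3
  have h5 : Nat.log 2 (w * D) + 1 ≤ (Nat.log 2 w + 1) * (Nat.log 2 D + 2) := by nlinarith
  calc w * D * (Nat.log 2 (w * D) + 1) ≤ w * D * ((Nat.log 2 w + 1) * (Nat.log 2 D + 2)) :=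
        Nat.mul_le_mul_left _ h5
    _ = _ := by ring

lemma any_true {n : ℕ} (hn : 2 ≤ n) : AnyMatching n (fun _ => true) := by
  have hE : 0 < Nat.log 2 n := Nat.log_pos (by norm_num) hn
  have h1 : 1 ≤ n / Nat.log 2 n := (Nat.one_le_div_iff hE).mpr (Nat.log_le_self 2 n)
  exact ⟨0, hE, 0, by simpa using h1, Equiv.refl _, fun _ _ _ => rfl⟩

lemma not_any_false {n : ℕ} : ¬ AnyMatching n (fun _ => false) := by
  rintro ⟨e, he, J, hJ, σ, h⟩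
  have hlt := blk_lt hJ ⟨0, by positivity⟩ (σ ⟨0, by positivity⟩)
  have hreg := region_le he
  have h1 := h ⟨0, by positivity⟩ ⟨_, lt_of_lt_of_le (Nat.add_lt_add_left hlt _) hreg⟩ rfl
  simp at h1

end Pool.Agent.W2helper58.NT
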