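import Pool.Agent.W2helper58.NT.Fun
import Pool.Agent.NPC.Defs

/-!
Project NT (MP_22d2c8_lc, very famous): the explicit function `AnyMatching` is in NP (indeed in P).

`AnyMatching n x` (file NT/Fun.lean): with `len = n / log₂ n` the input is cut into `log₂ n` regions of `len`
bits; region `e` is cut into blocks of `4 ^ e` bits (adjacency matrices of bipartite graphs with `2 ^ e + 2 ^ e`
vertices, row `u`, column `v` at offset `u * 2 ^ e + v`), and some block of some region has a perfect matching.

Proof of `P_NPF`. Certificate: the code of `(e, J, s)` with `e`, `J` natural numbers in unary (lists of bits) and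
`s` the list `σ 0, ..., σ (2 ^ e - 1)` in unary. All numbers are at most `n = x.length`, so the certificate has
polynomial length (for `e < log₂ n` we have `2 ^ e ≤ n`, `J ≤ n`). The verifier checks in polynomial time:
`e < log₂ n`, `(J + 1) * (2 ^ e) ^ 2 ≤ n / log₂ n`, `s` has length `2 ^ e`, its entries are smaller than `2 ^ e` and
different, and for each `u < 2 ^ e` the bit of `x` number `e * (n / log₂ n) + (J * (2 ^ e) ^ 2 + u * 2 ^ e + s u)` is
`true`. (Soundness: an injective map of `Fin k` into itself is a permutation. The position is smaller than `n` by
`region_le` and `blk_lt`.) With unary numbers all operations are polynomial-time list operations; see the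
`Poly` calculus in Pool/Agent/NPC (Enc, Prog, Num, Dec, Cmd).
-/

set_option autoImplicit false

namespace Pool.Agent.W2helper58.NT

/-- the language of the function -/
def Lang : Set (List Bool) := {x | AnyMatching x.length (fun p => x.get p)}

/-- the function is explicit: its language is in NP (Mathlib's TM2 polynomial time) -/
def P_NPF : Prop := Pool.Agent.NPC.InNP Lang

end Pool.Agent.W2helper58.NT
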